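import Mathlib

/-!
Density Hales-Jewett: averages, parameter words, the multidimensional form.
-/

namespace Pool.Agent.H602R3.DHJ

open Finset

/-! ### Averages -/

/-- average -/
noncomputable def av {X : Type*} [Fintype X] (f : X → ℝ) : ℝ := (∑ x, f x) / Fintype.card X

/-- density of a set -/
noncomputable def dn {X : Type*} [Fintype X] (A : Set X) : ℝ := av (A.indicator fun _ => (1 : ℝ))

section Av

variable {X Y : Type*} [Fintype X] [Fintype Y]

theorem av_const [Nonempty X] (c : ℝ) : av (fun _ : X => c) = c := by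
  unfold av
  rw [sum_const, card_univ, nsmul_eq_mul]
  have : (Fintype.card X : ℝ) ≠ 0 := by exact_mod_cast Fintype.card_ne_zero
  field_simp

theorem av_mono {f g : X → ℝ} (h : ∀ x, f x ≤ g x) : av f ≤ av g := by
  unfold av
  exact div_le_div_of_nonneg_right (sum_le_sum fun x _ => h x) (by positivity)

theorem av_nonneg {f : X → ℝ} (h : ∀ x, 0 ≤ f x) : 0 ≤ av f :=
  div_nonneg (sum_nonneg fun x _ => h x) (by positivity)

theorem av_add (f g : X → ℝ) : av (fun x => f x + g x) = av f + av g := by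
  unfold av
  rw [sum_add_distrib, add_div]

theorem av_sub (f g : X → ℝ) : av (fun x => f x - g x) = av f - av g := by
  unfold av
  rw [sum_sub_distrib, sub_div]

theorem av_mul (c : ℝ) (f : X → ℝ) : av (fun x => c * f x) = c * av f := by
  unfold av
  rw [← mul_sum, mul_div_assoc]

theorem av_sum {ι : Type*} (s : Finset ι) (f : ι → X → ℝ) :
    av (fun x => ∑ i ∈ s, f i x) = ∑ i ∈ s, av (f i) := by
  unfold av
  rw [sum_comm, sum_div]

theorem av_equiv (e : X ≃ Y) (f : Y → ℝ) : av (fun x => f (e x)) = av f := by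
  unfold av
  rw [Equiv.sum_comp e f, Fintype.card_congr e]

theorem av_prod (f : X × Y → ℝ) : av f = av (fun x => av (fun y => f (x, y))) := by
  unfold av
  rw [Fintype.sum_prod_type, Fintype.card_prod]
  push_cast
  rw [← sum_div, div_div, mul_comm]

theorem av_comm (f : X → Y → ℝ) : av (fun x => av (fun y => f x y)) = av (fun y => av (fun x => f x y)) := by
  unfold av
  simp_rw [← sum_div]
  rw [sum_comm]
  rw [div_right_comm]

theorem exists_le_av [Nonempty X] (f : X → ℝ) : ∃ x, av f ≤ f x := by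
  by_contra h
  push Not at h
  have h1 : ∑ x, f x < ∑ _x : X, av f := sum_lt_sum_of_nonempty univ_nonempty fun x _ => h x
  rw [sum_const, card_univ, nsmul_eq_mul] at h1
  have h2 : (Fintype.card X : ℝ) * av f = ∑ x, f x := by
    unfold av
    have : (Fintype.card X : ℝ) ≠ 0 := by exact_mod_cast Fintype.card_ne_zero
    field_simp
  linarith

theorem dn_nonneg (A : Set X) : 0 ≤ dn A :=
  av_nonneg fun x => Set.indicator_nonneg (fun _ _ => zero_le_one) x

theorem dn_mono {A B : Set X} (h : A ⊆ B) : dn A ≤ dn B :=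
  av_mono fun x => Set.indicator_le_indicator_of_subset h (fun _ => zero_le_one) x

omit [Fintype X] in
theorem ind_le_one (A : Set X) (x : X) : A.indicator (fun _ => (1 : ℝ)) x ≤ 1 := by
  by_cases h : x ∈ A
  · rw [Set.indicator_of_mem h]
  · rw [Set.indicator_of_notMem h]
    exact zero_le_one

theorem dn_le_one (A : Set X) : dn A ≤ 1 := by
  rcases isEmpty_or_nonempty X with h | h
  · unfold dn av
    simp
  · calc dn A ≤ av (fun _ : X => (1 : ℝ)) := av_mono fun x => ind_le_one A x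
      _ = 1 := av_const 1

theorem dn_empty : dn (∅ : Set X) = 0 := by
  unfold dn av
  simp

theorem nonempty_of_dn_pos {A : Set X} (h : 0 < dn A) : A.Nonempty := by
  rw [Set.nonempty_iff_ne_empty]
  rintro rfl
  rw [dn_empty] at h
  exact lt_irrefl _ h

/-- pigeonhole -/
theorem pigeon {K : Type*} [Fintype K] [Nonempty K] (S : Set X) (F : X → K) :
    ∃ k, dn S ≤ Fintype.card K * dn {x | x ∈ S ∧ F x = k} := by
  classical
  by_contra h
  push Not at h
  have h1 : dn S = ∑ k, dn {x | x ∈ S ∧ F x = k} := by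
    unfold dn
    rw [← av_sum]
    congr 1
    funext x
    by_cases hx : x ∈ S
    · rw [Set.indicator_of_mem hx]
      rw [sum_eq_single (F x)]
      · rw [Set.indicator_of_mem]
        exact ⟨hx, rfl⟩
      · intro k _ hk
        rw [Set.indicator_of_notMem]
        rintro ⟨_, h3⟩
        exact hk h3.symm
      · intro h3
        exact absurd (mem_univ _) h3
    · rw [Set.indicator_of_notMem hx]
      symm
      apply sum_eq_zero
      intro k _
      rw [Set.indicator_of_notMem]
      rintro ⟨h3, _⟩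
      exact hx h3
  have h2 : ∑ k : K, (Fintype.card K : ℝ) * dn {x | x ∈ S ∧ F x = k} < ∑ _k : K, dn S :=
    sum_lt_sum_of_nonempty univ_nonempty fun k _ => h k
  rw [← mul_sum, ← h1, sum_const, card_univ, nsmul_eq_mul] at h2
  exact lt_irrefl _ h2

/-- many large values -/
theorem dn_large [Nonempty X] (f : X → ℝ) (hf : ∀ x, f x ≤ 1) {δ : ℝ} (hδ : 2 * δ ≤ av f)
    (hδ0 : 0 ≤ δ) : δ ≤ dn {x | δ ≤ f x} := by
  have h1 : av f ≤ av (fun x => Set.indicator {x | δ ≤ f x} (fun _ => (1 : ℝ)) x + δ) := by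
    apply av_mono
    intro x
    by_cases h : δ ≤ f x
    · rw [Set.indicator_of_mem (by exact h)]
      linarith [hf x]
    · rw [Set.indicator_of_notMem (by exact h)]
      push Not at h
      linarith
  rw [av_add, av_const] at h1
  unfold dn
  linarith

end Av

/-- averages over words on a sum -/
theorem av_sumWords {ι κ α : Type} [Fintype ι] [DecidableEq ι] [Fintype κ] [DecidableEq κ]
    [Fintype α] (f : (ι ⊕ κ → α) → ℝ) :
    av f = av (fun x : ι → α => av (fun z : κ → α => f (Sum.elim x z))) := by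
  rw [← av_equiv (Equiv.sumArrowEquivProdArrow ι κ α).symm f, av_prod]
  rfl

/-! ### Parameter words -/

section Words

variable {ι κ α η ζ : Type}

/-- substitution into a parameter word -/
def ap (V : ι → α ⊕ η) (x : η → α) : ι → α := fun i => Sum.elim id x (V i)

/-- every parameter occurs -/
def Pr (V : ι → α ⊕ η) : Prop := ∀ j, ∃ i, V i = Sum.inr j

/-- composition -/
def cp (V : ι → α ⊕ η) (U : η → α ⊕ ζ) : ι → α ⊕ ζ := fun i => Sum.elim Sum.inl U (V i)

theorem ap_cp (V : ι → α ⊕ η) (U : η → α ⊕ ζ) (x : ζ → α) : ap (cp V U) x = ap V (ap U x) := by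
  funext i
  unfold ap cp
  rcases V i with a | j <;> rfl

theorem Pr_cp {V : ι → α ⊕ η} {U : η → α ⊕ ζ} (hV : Pr V) (hU : Pr U) : Pr (cp V U) := by
  intro l
  obtain ⟨j, hj⟩ := hU l
  obtain ⟨i, hi⟩ := hV j
  refine ⟨i, ?_⟩
  unfold cp
  rw [hi]
  exact hj

theorem ap_inj {V : ι → α ⊕ η} (hV : Pr V) {x y : η → α} (h : ap V x = ap V y) : x = y := by
  funext j
  obtain ⟨i, hi⟩ := hV j
  have := congrFun h i
  unfold ap at this
  rw [hi] at this
  exact this

/-- fix the letters on the right -/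
def fixR (V : ι → α ⊕ η) (z : κ → α) : ι ⊕ κ → α ⊕ η := Sum.elim V (fun j => Sum.inl (z j))

/-- fix the letters on the left -/
def fixL (x : ι → α) (V : κ → α ⊕ η) : ι ⊕ κ → α ⊕ η := Sum.elim (fun j => Sum.inl (x j)) V

theorem ap_fixR (V : ι → α ⊕ η) (z : κ → α) (x : η → α) : ap (fixR V z) x = Sum.elim (ap V x) z := by
  funext i
  rcases i with i | i <;> rfl

theorem ap_fixL (x : ι → α) (V : κ → α ⊕ η) (y : η → α) : ap (fixL x V) y = Sum.elim x (ap V y) := by
  funext i
  rcases i with i | i <;> rfl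

theorem Pr_fixR {V : ι → α ⊕ η} (hV : Pr V) (z : κ → α) : Pr (fixR V z) := by
  intro j
  obtain ⟨i, hi⟩ := hV j
  exact ⟨Sum.inl i, hi⟩

theorem Pr_fixL {V : κ → α ⊕ η} (hV : Pr V) (x : ι → α) : Pr (fixL x V) := by
  intro j
  obtain ⟨i, hi⟩ := hV j
  exact ⟨Sum.inr i, hi⟩

/-- extension of the alphabet -/
def ext (V : ι → α ⊕ η) : ι → Option α ⊕ η := fun i => Sum.map some id (V i)

theorem Pr_ext {V : ι → α ⊕ η} (hV : Pr V) : Pr (ext V) := by
  intro j
  obtain ⟨i, hi⟩ := hV j
  exact ⟨i, by unfold ext; rw [hi]; rfl⟩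

theorem ap_ext_some (V : ι → α ⊕ η) (x : η → α) :
    ap (ext V) (fun j => some (x j)) = fun i => some (ap V x i) := by
  funext i
  unfold ap ext
  rcases V i with a | j <;> rfl

theorem ext_cp (V : ι → α ⊕ η) (U : η → α ⊕ ζ) : ext (cp V U) = cp (ext V) (ext U) := by
  funext i
  show Sum.map some id (Sum.elim Sum.inl U (V i)) =
    Sum.elim Sum.inl (fun i => Sum.map some id (U i)) (Sum.map some id (V i))
  rcases V i with a | j <;> rfl

/-- no line -/
def LFr (A : Set (ι → α)) : Prop := ∀ V : ι → α ⊕ Unit, Pr V → ∃ a, ap V (fun _ => a) ∉ A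

theorem LFr_pull {A : Set (ι → α)} (hA : LFr A) {U : ι → α ⊕ η} (hU : Pr U) :
    LFr {x : η → α | ap U x ∈ A} := by
  intro V hV
  obtain ⟨a, ha⟩ := hA (cp U V) (Pr_cp hU hV)
  exact ⟨a, by rw [ap_cp] at ha; exact ha⟩

theorem LFr_right {A : Set (ι ⊕ κ → α)} (hA : LFr A) (x : ι → α) :
    LFr {z : κ → α | Sum.elim x z ∈ A} := by
  intro V hV
  obtain ⟨a, ha⟩ := hA (fixL x V) (Pr_fixL hV x)
  exact ⟨a, by rw [ap_fixL] at ha; exact ha⟩

theorem LFr_left {A : Set (ι ⊕ κ → α)} (hA : LFr A) (z : κ → α) :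
    LFr {x : ι → α | Sum.elim x z ∈ A} := by
  intro V hV
  obtain ⟨a, ha⟩ := hA (fixR V z) (Pr_fixR hV z)
  exact ⟨a, by rw [ap_fixR] at ha; exact ha⟩

theorem LFr_equiv {A : Set (ι → α)} (hA : LFr A) (e : ι ≃ κ) :
    LFr {x : κ → α | x ∘ e ∈ A} := by
  intro V hV
  obtain ⟨a, ha⟩ := hA (V ∘ e) (by
    intro j
    obtain ⟨i, hi⟩ := hV j
    exact ⟨e.symm i, by simpa using hi⟩)
  exact ⟨a, ha⟩

end Words

theorem dn_equivWords {ι κ α : Type} [Fintype ι] [DecidableEq ι] [Fintype κ] [DecidableEq κ]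
    [Fintype α] (A : Set (ι → α)) (e : ι ≃ κ) : dn {x : κ → α | x ∘ e ∈ A} = dn A := by
  unfold dn
  rw [← av_equiv (e.arrowCongr (Equiv.refl α)).symm]
  rfl

/-- an index set of at least `n` elements splits off `n` of them -/
theorem split_equiv (ι : Type) [Fintype ι] {n : ℕ} (h : n ≤ Fintype.card ι) :
    Nonempty (ι ≃ Fin n ⊕ Fin (Fintype.card ι - n)) := by
  refine ⟨(Fintype.equivFinOfCardEq (n := n + (Fintype.card ι - n)) (by omega)).trans
    finSumFinEquiv.symm⟩

/-- density Hales-Jewett for the alphabet `α` -/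
def D (α : Type) [Fintype α] : Prop :=
  ∀ δ : ℝ, 0 < δ → ∃ N : ℕ, ∀ A : Set (Fin N → α), LFr A → dn A < δ

/-- larger dimensions -/
theorem D_up {α : Type} [Fintype α] [Nonempty α] {δ : ℝ} {N : ℕ}
    (h : ∀ A : Set (Fin N → α), LFr A → dn A < δ) (ι : Type) [Fintype ι] [DecidableEq ι]
    (hι : N ≤ Fintype.card ι) (A : Set (ι → α)) (hA : LFr A) : dn A < δ := by
  obtain ⟨e⟩ := split_equiv ι hι
  rw [← dn_equivWords A e]
  have hA' := LFr_equiv hA e
  set A' : Set (Fin N ⊕ Fin (Fintype.card ι - N) → α) := {x | x ∘ e ∈ A} with hA'def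
  unfold dn
  rw [av_sumWords, av_comm]
  obtain ⟨z, hz⟩ := exists_le_av (fun z : Fin (Fintype.card ι - N) → α =>
    av (fun x : Fin N → α => A'.indicator (fun _ => (1 : ℝ)) (Sum.elim x z)))
  refine lt_of_le_of_lt hz ?_
  exact h {x | Sum.elim x z ∈ A'} (LFr_left hA' z)

/-- the multidimensional form -/
def MD (α : Type) [Fintype α] : Prop :=
  ∀ (m : ℕ) (δ : ℝ), 0 < δ → ∃ N : ℕ, ∀ (ι : Type) [Fintype ι] [DecidableEq ι],
    N ≤ Fintype.card ι → ∀ A : Set (ι → α), δ ≤ dn A →
    ∃ V : ι → α ⊕ Fin m, Pr V ∧ ∀ x, ap V x ∈ A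

theorem MD_of_D {α : Type} [Fintype α] [Nonempty α] (hD : D α) : MD α := by
  classical
  intro m
  induction m with
  | zero =>
    intro δ hδ
    refine ⟨0, fun ι _ _ _ A hA => ?_⟩
    obtain ⟨x, hx⟩ := nonempty_of_dn_pos (lt_of_lt_of_le hδ hA)
    exact ⟨fun i => Sum.inl (x i), fun j => j.elim0, fun _ => hx⟩
  | succ m ih =>
    intro δ hδ
    obtain ⟨N₁, hN₁⟩ := hD (δ / 2) (by linarith)
    set L : ℕ := Fintype.card (Fin N₁ → α ⊕ Unit) with hL
    have hLpos : (0 : ℝ) < L := by
      rw [hL]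
      exact_mod_cast Fintype.card_pos
    obtain ⟨N₂, hN₂⟩ := ih (δ / 2 / L) (by positivity)
    refine ⟨N₁ + N₂, fun ι _ _ hι A hA => ?_⟩
    obtain ⟨e⟩ := split_equiv ι (n := N₁) (by omega)
    set b : ℕ := Fintype.card ι - N₁ with hb
    set A' : Set (Fin N₁ ⊕ Fin b → α) := {x | x ∘ e ∈ A} with hA'def
    have hdn : δ ≤ dn A' := by rw [hA'def, dn_equivWords A e]; exact hA
    -- the sections
    have h1 : dn A' = av (fun z : Fin b → α => dn {x : Fin N₁ → α | Sum.elim x z ∈ A'}) := by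
      unfold dn
      rw [av_sumWords, av_comm]
      rfl
    set S : Set (Fin b → α) := {z | δ / 2 ≤ dn {x : Fin N₁ → α | Sum.elim x z ∈ A'}} with hS
    have hSdn : δ / 2 ≤ dn S := dn_large _ (fun z => dn_le_one _) (by rw [← h1]; linarith)
      (by linarith)
    have hline : ∀ z : Fin b → α, ∃ V : Fin N₁ → α ⊕ Unit, z ∈ S →
        Pr V ∧ ∀ a, Sum.elim (ap V (fun _ => a)) z ∈ A' := by
      intro z
      by_cases hz : z ∈ S
      · by_contra hcon
        push Not at hcon
        have : dn {x : Fin N₁ → α | Sum.elim x z ∈ A'} < δ / 2 := hN₁ _ (by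
          intro V hV
          exact (hcon V).2 hV)
        exact absurd hz (not_le.2 this)
      · exact ⟨fun _ => Sum.inr (), fun h => absurd h hz⟩
    choose F hF using hline
    obtain ⟨V, hV⟩ := pigeon S F
    obtain ⟨U, hU, hUA⟩ := hN₂ (Fin b) (by rw [Fintype.card_fin]; omega)
      {z | z ∈ S ∧ F z = V} (by
        rw [div_le_iff₀' hLpos]
        exact hSdn.trans hV)
    have hU0 := hUA (fun _ => Classical.arbitrary α)
    have hVpr : Pr V := by
      have := (hF _ hU0.1).1
      rw [hU0.2] at this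
      exact this
    refine ⟨(Sum.elim (fun i => Sum.map id (fun _ => (0 : Fin (m + 1))) (V i))
      (fun j => Sum.map id Fin.succ (U j))) ∘ e, ?_, ?_⟩
    · intro j
      refine Fin.cases ?_ (fun j => ?_) j
      · obtain ⟨i, hi⟩ := hVpr ()
        refine ⟨e.symm (Sum.inl i), ?_⟩
        simp [hi]
      · obtain ⟨i, hi⟩ := hU j
        refine ⟨e.symm (Sum.inr i), ?_⟩
        simp [hi]
    · intro x
      have h2 := hUA (fun j => x j.succ)
      have h3 := (hF _ h2.1).2 (x 0)
      rw [h2.2] at h3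
      have h4 : ap ((Sum.elim (fun i => Sum.map id (fun _ => (0 : Fin (m + 1))) (V i))
          (fun j => Sum.map id Fin.succ (U j))) ∘ e) x =
          (Sum.elim (ap V (fun _ => x 0)) (ap U (fun j => x j.succ))) ∘ e := by
        funext i
        simp only [ap, Function.comp]
        rcases e i with i' | i'
        · show Sum.elim id x (Sum.map id (fun _ => (0 : Fin (m + 1))) (V i')) =
            Sum.elim id (fun _ => x 0) (V i')
          rcases V i' with a | u <;> rfl
        · show Sum.elim id x (Sum.map id Fin.succ (U i')) =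
            Sum.elim id (fun j => x j.succ) (U i')
          rcases U i' with a | u <;> rfl
      rw [h4]
      exact h3

end Pool.Agent.H602R3.DHJ
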